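import Pool.Agent.Q80.KT.Stm

/-!
# Expected sizes of spheres: first moments by counting paths
-/

open Finset MeasureTheory Filter Topology
open scoped Classical ENNReal NNReal

noncomputable section

namespace Q187.KT.PATH

open Pool.Agent.Q80.KT Pool.Agent.Q287.SR

/-- the vertices `v, φ 0, φ 1, ...` -/
def pth {n j : ℕ} (v : Fin n) (φ : Fin j → Fin n) : Fin (j + 1) → Fin n := Fin.cons v φ

/-- the edges of the path are present -/
def PP {n j : ℕ} (v : Fin n) (φ : Fin j → Fin n) (G : SimpleGraph (Fin n)) : Prop :=
  ∀ k : Fin j, G.Adj (pth v φ k.castSucc) (pth v φ k.succ)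

lemma exists_pth {n j : ℕ} (G : SimpleGraph (Fin n)) (v w : Fin n) (h : w ∈ sph G v j) :
    ∃ φ : Fin j → Fin n, pth v φ (Fin.last j) = w ∧ Function.Injective (pth v φ) ∧ PP v φ G := by
  simp only [sph, mem_filter, mem_univ, true_and] at h
  obtain ⟨hr, hd⟩ := h
  obtain ⟨p, hp, hl⟩ := hr.exists_path_of_dist
  have hj : p.length = j := hl.trans hd
  have e : pth v (fun k : Fin j => p.getVert (k + 1)) = fun k : Fin (j + 1) => p.getVert k := by
    funext k
    refine Fin.cases ?_ (fun k => ?_) k
    · simp [pth]
    · simp [pth]
  refine ⟨fun k => p.getVert (k + 1), ?_, ?_, ?_⟩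
  · rw [e]
    simp only [Fin.val_last]
    rw [← hj]
    exact p.getVert_length
  · rw [e]
    intro a b hab
    have := hp.getVert_injOn (by simp only [Set.mem_ofPred_eq]; omega : (a : ℕ) ∈ {i | i ≤ p.length})
      (by simp only [Set.mem_ofPred_eq]; omega : (b : ℕ) ∈ {i | i ≤ p.length}) hab
    exact Fin.ext this
  · intro k
    rw [e]
    simp only [Fin.val_castSucc, Fin.val_succ]
    exact p.adj_getVert_succ (by omega)

lemma Ex_PP {n j : ℕ} (p : ℝ) (v : Fin n) (φ : Fin j → Fin n) (h : Function.Injective (pth v φ)) :
    Ex n p (fun G => ind (PP v φ G)) = p ^ j := by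
  set D : Finset (Sym2 (Fin n)) := univ.image fun k : Fin j => s(pth v φ k.castSucc, pth v φ k.succ)
  have hD : D ⊆ pairs n := by
    intro e he
    obtain ⟨k, -, rfl⟩ := mem_image.1 he
    simp only [pairs, mem_filter, mem_univ, true_and, Sym2.mk_isDiag_iff]
    intro hk
    have := congrArg Fin.val (h hk)
    simp at this
  have hc : D.card = j := by
    rw [card_image_of_injective]
    · simp
    · intro k l hkl
      simp only [Sym2.eq_iff] at hkl
      rcases hkl with ⟨h1, -⟩ | ⟨h1, h2⟩
      · have := congrArg Fin.val (h h1)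
        exact Fin.ext (by simpa using this)
      · have a1 := congrArg Fin.val (h h1)
        have a2 := congrArg Fin.val (h h2)
        simp at a1 a2
        omega
  have h1 := Ex_present p hD
  rw [hc] at h1
  rw [← h1]
  congr 1
  funext G
  unfold ind present
  congr 1
  simp only [eq_iff_iff]
  constructor
  · intro hG e he
    obtain ⟨k, -, rfl⟩ := mem_image.1 he
    exact hG k
  · intro hG k
    exact hG _ (mem_image_of_mem _ (mem_univ k))

/-- the probability that `w` is at distance `j` -/
lemma Ex_sph {n : ℕ} {p : ℝ} (h0 : 0 ≤ p) (h1 : p ≤ 1) (v w : Fin n) (j : ℕ) :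
    Ex n p (fun G => ind (w ∈ sph G v j)) ≤
      ((univ.filter fun φ : Fin j → Fin n => pth v φ (Fin.last j) = w).card : ℝ) * p ^ j := by
  set S := univ.filter fun φ : Fin j → Fin n => pth v φ (Fin.last j) = w
  calc Ex n p (fun G => ind (w ∈ sph G v j))
      ≤ Ex n p (fun G => ∑ φ ∈ S, if Function.Injective (pth v φ) then ind (PP v φ G) else 0) := by
        apply Ex_mono h0 h1
        intro G
        have hnn : ∀ φ ∈ S, (0 : ℝ) ≤ if Function.Injective (pth v φ) then ind (PP v φ G) else 0 := by
          intro φ _
          unfold ind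
          split_ifs <;> norm_num
        by_cases hw : w ∈ sph G v j
        · obtain ⟨φ, e1, e2, e3⟩ := exists_pth G v w hw
          have := Finset.single_le_sum hnn (mem_filter.2 ⟨mem_univ φ, e1⟩ : φ ∈ S)
          refine le_trans ?_ this
          simp [ind, hw, e2, e3]
        · have : ind (w ∈ sph G v j) = 0 := by simp [ind, hw]
          rw [this]
          exact Finset.sum_nonneg hnn
    _ = ∑ φ ∈ S, Ex n p (fun G => if Function.Injective (pth v φ) then ind (PP v φ G) else 0) := by
        rw [Ex_sum p S (fun φ G => if Function.Injective (pth v φ) then ind (PP v φ G) else 0)]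
    _ ≤ ∑ φ ∈ S, p ^ j := by
        apply Finset.sum_le_sum
        intro φ _
        by_cases hi : Function.Injective (pth v φ)
        · simp only [hi, if_true]
          exact (Ex_PP p v φ hi).le
        · simp only [hi, if_false]
          rw [Ex_const]
          positivity
    _ = (S.card : ℝ) * p ^ j := by rw [Finset.sum_const, nsmul_eq_mul]

lemma card_le {n : ℕ} (v w : Fin n) (hw : w ≠ v) (j : ℕ) :
    (univ.filter fun φ : Fin j → Fin n => pth v φ (Fin.last j) = w).card * n ≤ n ^ j := by
  rcases j with _ | m
  · have : (univ.filter fun φ : Fin 0 → Fin n => pth v φ (Fin.last 0) = w) = ∅ := by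
      apply Finset.filter_eq_empty_iff.2
      intro φ _
      simp only [pth, Fin.last_zero, Fin.cons_zero]
      exact fun h => hw h.symm
    rw [this]
    simp
  · have h1 : (univ.filter fun φ : Fin (m + 1) → Fin n => pth v φ (Fin.last (m + 1)) = w).card ≤
        (univ : Finset (Fin m → Fin n)).card := by
      apply Finset.card_le_card_of_injOn (fun φ => fun k : Fin m => φ k.castSucc)
      · intro φ _
        exact mem_coe.2 (mem_univ _)
      · intro φ h1 φ' h2 he
        have h1 := (mem_filter.1 (mem_coe.1 h1)).2
        have h2 := (mem_filter.1 (mem_coe.1 h2)).2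
        rw [← Fin.succ_last] at h1 h2
        simp only [pth, Fin.cons_succ] at h1 h2
        funext k
        refine Fin.lastCases ?_ (fun k => ?_) k
        · rw [h1, h2]
        · exact congrFun he k
    have h2 : (univ : Finset (Fin m → Fin n)).card = n ^ m := by simp
    rw [h2] at h1
    calc _ ≤ n ^ m * n := Nat.mul_le_mul_right n h1
      _ = n ^ (m + 1) := by ring

theorem t_PATH : S_PATH := by
  intro n p v i h0 h1
  constructor
  · have e1 : Ex n p (fun G => ((sph G v i).card : ℝ)) =
        ∑ w : Fin n, Ex n p (fun G => ind (w ∈ sph G v i)) := by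
      rw [← Ex_sum p univ (fun w G => ind (w ∈ sph G v i))]
      congr 1
      funext G
      have h2 : ∀ w ∈ (univ : Finset (Fin n)), ind (w ∈ sph G v i) = if w ∈ sph G v i then (1 : ℝ) else 0 := by
        intro w _
        unfold ind
        split_ifs <;> rfl
      rw [Finset.sum_congr rfl h2, Finset.sum_ite_mem]
      simp
    rw [e1]
    calc ∑ w : Fin n, Ex n p (fun G => ind (w ∈ sph G v i))
        ≤ ∑ w : Fin n, ((univ.filter fun φ : Fin i → Fin n => pth v φ (Fin.last i) = w).card : ℝ) * p ^ i :=
          Finset.sum_le_sum fun w _ => Ex_sph h0 h1 v w i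
      _ = (n * p) ^ i := by
          rw [← Finset.sum_mul, mul_pow]
          congr 1
          rw [← Nat.cast_sum]
          have := Finset.card_eq_sum_card_fiberwise (s := (univ : Finset (Fin i → Fin n)))
            (t := (univ : Finset (Fin n))) (f := fun φ => pth v φ (Fin.last i))
            (fun _ _ => mem_coe.2 (mem_univ _))
          rw [← this]
          simp
  · intro w hw r
    have e1 : Pr n p (fun G => w ∈ ball G v r) ≤
        ∑ j ∈ Finset.range (r + 1), Ex n p (fun G => ind (w ∈ sph G v j)) := by
      rw [← Ex_sum p (Finset.range (r + 1)) (fun j G => ind (w ∈ sph G v j))]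
      unfold Pr
      apply Ex_mono h0 h1
      intro G
      have hnn : ∀ j ∈ Finset.range (r + 1), (0 : ℝ) ≤ ind (w ∈ sph G v j) := by
        intro j _
        unfold ind
        split_ifs <;> norm_num
      by_cases hb : w ∈ ball G v r
      · have hb' := hb
        simp only [ball, mem_filter, mem_univ, true_and] at hb'
        have hs : w ∈ sph G v (G.dist v w) := by
          simp only [sph, mem_filter, mem_univ, true_and]
          exact ⟨hb'.1, trivial⟩
        have := Finset.single_le_sum hnn (mem_range.2 (by omega) : G.dist v w ∈ Finset.range (r + 1))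
        refine le_trans ?_ this
        simp [ind, hb, hs]
      · have : ind (w ∈ ball G v r) = 0 := by simp [ind, hb]
        rw [this]
        exact Finset.sum_nonneg hnn
    calc Pr n p (fun G => w ∈ ball G v r) * n
        ≤ (∑ j ∈ Finset.range (r + 1), Ex n p (fun G => ind (w ∈ sph G v j))) * n :=
          mul_le_mul_of_nonneg_right e1 (Nat.cast_nonneg n)
      _ = ∑ j ∈ Finset.range (r + 1), Ex n p (fun G => ind (w ∈ sph G v j)) * n := by rw [Finset.sum_mul]
      _ ≤ ∑ j ∈ Finset.range (r + 1), (n * p) ^ j := by
          apply Finset.sum_le_sum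
          intro j _
          calc Ex n p (fun G => ind (w ∈ sph G v j)) * n
              ≤ (((univ.filter fun φ : Fin j → Fin n => pth v φ (Fin.last j) = w).card : ℝ) * p ^ j) * n :=
                mul_le_mul_of_nonneg_right (Ex_sph h0 h1 v w j) (Nat.cast_nonneg n)
            _ = (((univ.filter fun φ : Fin j → Fin n => pth v φ (Fin.last j) = w).card * n : ℕ) : ℝ) * p ^ j := by
                push_cast; ring
            _ ≤ ((n ^ j : ℕ) : ℝ) * p ^ j := by
                apply mul_le_mul_of_nonneg_right _ (by positivity)
                exact_mod_cast card_le v w hw j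
            _ = (n * p) ^ j := by push_cast; rw [mul_pow]

end Q187.KT.PATH
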